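import Pool.Agent.H14.JnB

namespace Pool.Agent.Results.MP_84eedd_co.NoInterlace
open Polynomial Pool.Agent.H14.JnB

theorem result :
    ∃ l : ℕ → ℝ, (∀ k, 0 < l k) ∧ ∃ a b f1 f2 g1 g2 : ℝ, a ≠ 0 ∧ b ≠ 0 ∧ f2 ≤ f1 ∧ g2 ≤ g1 ∧
      Q l 4 = C a * ((X - C f1) * (X - C f2)) ∧ Q l 5 = C b * ((X - C g1) * (X - C g2)) ∧
      g2 < f2 :=
  both.2

end Pool.Agent.Results.MP_84eedd_co.NoInterlace
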