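import Pool.Agent.H14.JnB

namespace Pool.Agent.Results.MP_84eedd_co.Stable
open Polynomial Pool.Agent.H14.JnB

theorem result :
    ∀ l : ℕ → ℝ, (∀ k, 0 < l k) → ∀ (n : ℕ) (z : ℂ), aeval z (Q l n) = 0 → z.im = 0 :=
  both.1

end Pool.Agent.Results.MP_84eedd_co.Stable
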